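import Mathlib
import Pool.Agent.U798.GP.Spec

/-! Project GQ (helper798), package REIX: reindexing of a class (proved by helper109). -/

set_option autoImplicit false

namespace Pool.Agent.U109.GP

open Pool.Agent.U798.GP

theorem split (B : ℕ) : ∀ N : ℕ, 0 < N → ∃ σ d : ℕ, σ ∈ Sm B ∧ 0 < d ∧ Nat.Coprime d B ∧ N = σ * d := by
  intro N
  induction N using Nat.strong_induction_on with
  | _ N ih =>
    intro hN
    by_cases h : Nat.Coprime N B
    · refine ⟨1, N, ⟨le_rfl, fun l hl h1 => ?_⟩, hN, h, (one_mul N).symm⟩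
      exact absurd (Nat.dvd_one.1 h1) hl.ne_one
    · obtain ⟨l, hl, hlN, hlB⟩ := Nat.Prime.not_coprime_iff_dvd.1 h
      obtain ⟨M, rfl⟩ := hlN
      have hM : 0 < M := Nat.pos_of_mul_pos_left hN
      have hlt : M < l * M := by
        have := hl.two_le
        nlinarith
      obtain ⟨σ, d, hσ, hd, hc, he⟩ := ih M hlt hM
      refine ⟨l * σ, d, ⟨?_, fun k hk hkd => ?_⟩, hd, hc, ?_⟩
      · exact Nat.mul_pos hl.pos hσ.1
      · rcases (hk.dvd_mul).1 hkd with h1 | h1
        · rw [(Nat.prime_dvd_prime_iff_eq hk hl).1 h1]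
          exact hlB
        · exact hσ.2 k hk h1
      · rw [mul_assoc, ← he]

theorem t_REIX : S_REIX := by
  intro p q hp hq n hn
  obtain ⟨σ, d', hσ, hd', hcop, he⟩ := split (p * q) n.natAbs (Int.natAbs_pos.2 hn)
  obtain ⟨d, hd⟩ : ∃ d : ℤ, d = n.sign * d' := ⟨_, rfl⟩
  have hsign : n.sign ≠ 0 := by
    intro h
    exact hn (Int.sign_eq_zero_iff_zero.1 h)
  have hd0 : d ≠ 0 := by
    rw [hd]
    exact mul_ne_zero hsign (by exact_mod_cast hd'.ne')
  have hdabs : d.natAbs = d' := by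
    rw [hd, Int.natAbs_mul, Int.natAbs_sign_of_ne_zero hn]
    simp
  have hnd : n = (σ : ℤ) * d := by
    have h1 : n = n.sign * (n.natAbs : ℤ) := (Int.sign_mul_natAbs n).symm
    rw [hd]
    conv_lhs => rw [h1, he]
    push_cast
    ring
  refine ⟨σ, hσ, d, hd0, by rw [hdabs]; exact hcop, hnd, fun c => ?_⟩
  have hcl : ∀ s : ℤ, Cl p q (s * d) n ↔ Cl p q s σ := by
    intro s
    unfold Cl
    constructor
    · rintro ⟨a, b, a', b', h⟩
      refine ⟨a, b, a', b', ?_⟩
      rw [hnd] at h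
      have h2 : d * (s * (p : ℤ) ^ a * (q : ℤ) ^ b) = d * ((σ : ℤ) * (p : ℤ) ^ a' * (q : ℤ) ^ b') := by
        linear_combination h
      exact mul_left_cancel₀ hd0 h2
    · rintro ⟨a, b, a', b', h⟩
      refine ⟨a, b, a', b', ?_⟩
      rw [hnd]
      linear_combination d * h
  have hinj : Function.Injective (fun s : Sm (p * q) => ((s : ℕ) : ℤ) * d) := by
    intro s s' h
    have h1 : ((s : ℕ) : ℤ) * d = ((s' : ℕ) : ℤ) * d := h
    have h2 := mul_right_cancel₀ hd0 h1
    exact Subtype.ext (by exact_mod_cast h2)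
  have hsupp : Function.support (Set.indicator {m : ℤ | Cl p q m n} c) ⊆
      Set.range (fun s : Sm (p * q) => ((s : ℕ) : ℤ) * d) := by
    intro m hm
    have hm1 : Cl p q m n := by
      by_contra hcon
      exact hm (Set.indicator_of_notMem (show m ∉ {m : ℤ | Cl p q m n} from hcon) c)
    obtain ⟨a, b, a', b', h⟩ := hm1
    have hpq : Nat.Coprime d.natAbs (p ^ a * q ^ b) := by
      rw [hdabs]
      apply Nat.Coprime.mul_right
      · exact (Nat.Coprime.coprime_mul_right_right hcop).pow_right a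
      · exact (Nat.Coprime.coprime_mul_left_right hcop).pow_right b
    have hco : IsCoprime d ((p : ℤ) ^ a * (q : ℤ) ^ b) := by
      rw [Int.isCoprime_iff_gcd_eq_one]
      have : ((p : ℤ) ^ a * (q : ℤ) ^ b) = ((p ^ a * q ^ b : ℕ) : ℤ) := by push_cast; rfl
      rw [this]
      exact hpq
    have hdm : d ∣ m := by
      apply hco.dvd_of_dvd_mul_right (y := m)
      rw [hnd] at h
      exact ⟨(σ : ℤ) * (p : ℤ) ^ a' * (q : ℤ) ^ b', by linear_combination h⟩
    obtain ⟨s, rfl⟩ := hdm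
    have h3 : s * (p : ℤ) ^ a * (q : ℤ) ^ b = (σ : ℤ) * (p : ℤ) ^ a' * (q : ℤ) ^ b' := by
      rw [hnd] at h
      have h2 : d * (s * (p : ℤ) ^ a * (q : ℤ) ^ b) = d * ((σ : ℤ) * (p : ℤ) ^ a' * (q : ℤ) ^ b') := by
        linear_combination h
      exact mul_left_cancel₀ hd0 h2
    have hp0 : (0 : ℤ) < p := by exact_mod_cast (by omega : 0 < p)
    have hq0 : (0 : ℤ) < q := by exact_mod_cast (by omega : 0 < q)
    have hσ0 : (0 : ℤ) < σ := by exact_mod_cast hσ.1
    have hs0 : 0 < s := by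
      have h4 : 0 < s * ((p : ℤ) ^ a * (q : ℤ) ^ b) := by
        rw [← mul_assoc, h3]
        positivity
      exact pos_of_mul_pos_left h4 (by positivity)
    obtain ⟨k, rfl⟩ : ∃ k : ℕ, s = (k : ℤ) := ⟨s.toNat, (Int.toNat_of_nonneg hs0.le).symm⟩
    have hk : k ∈ Sm (p * q) := by
      refine ⟨by exact_mod_cast hs0, fun l hl hlk => ?_⟩
      have h5 : k * p ^ a * q ^ b = σ * p ^ a' * q ^ b' := by exact_mod_cast h3
      have h6 : l ∣ σ * p ^ a' * q ^ b' := by
        rw [← h5]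
        exact (hlk.mul_right _).mul_right _
      rcases (hl.dvd_mul).1 h6 with h7 | h7
      · rcases (hl.dvd_mul).1 h7 with h8 | h8
        · exact hσ.2 l hl h8
        · exact (hl.dvd_of_dvd_pow h8).mul_right q
      · exact (hl.dvd_of_dvd_pow h7).mul_left p
    exact ⟨⟨k, hk⟩, mul_comm _ _⟩
  rw [← hinj.tsum_eq hsupp]
  refine tsum_congr fun s => ?_
  by_cases hs : Cl p q ((s : ℕ) : ℤ) (σ : ℤ)
  · rw [Set.indicator_of_mem (show ((s : ℕ) : ℤ) * d ∈ {m : ℤ | Cl p q m n} from (hcl _).2 hs),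
      Set.indicator_of_mem (show (s : ℕ) ∈ {s : ℕ | Cl p q s σ} from hs)]
  · rw [Set.indicator_of_notMem (show ((s : ℕ) : ℤ) * d ∉ {m : ℤ | Cl p q m n} from
        fun h => hs ((hcl _).1 h)),
      Set.indicator_of_notMem (show (s : ℕ) ∉ {s : ℕ | Cl p q s σ} from hs)]

end Pool.Agent.U109.GP
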